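import Pool.Agent.W477.GM.Stms

/-!
# VG1: every symmetric name of the second forcing is the value of a symmetric name of the first
-/

set_option maxHeartbeats 1000000
set_option linter.all false

namespace Pool.Agent.W477.GM.W800VG1

open Pool.Agent.W477.GM

section flips

variable {C : Type} {L : C → ℕ∞} [PartialOrder C] [OrderTop C]

theorem fl_c (z : J → Ordinal.{0} → Bool) (p : Cn C L) : (fl z p).c = p.c := by
  unfold fl; rfl

theorem fl_len (z : J → Ordinal.{0} → Bool) (p : Cn C L) : (fl z p).len = p.len := by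
  unfold fl; rfl

theorem fl_bit (z : J → Ordinal.{0} → Bool) (p : Cn C L) (j : J) (o : Ordinal.{0})
    (ho : o < p.len j) : (fl z p).bit j o = xor (p.bit j o) (z j o) := by
  unfold fl
  simp [ho]

theorem fl_fl (z : J → Ordinal.{0} → Bool) (p : Cn C L) : fl z (fl z p) = p := by
  apply Cn.ext'
  · rw [fl_c, fl_c]
  · intro j; rw [fl_len, fl_len]
  · intro j o ho
    rw [fl_len, fl_len] at ho
    rw [fl_bit _ _ _ _ (by rw [fl_len]; exact ho), fl_bit _ _ _ _ ho]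
    cases p.bit j o <;> cases z j o <;> rfl

theorem fl_mono (z : J → Ordinal.{0} → Bool) (p q : Cn C L) (h : p ≤ q) : fl z p ≤ fl z q := by
  refine ⟨by rw [fl_c, fl_c]; exact h.1, fun j => ⟨by rw [fl_len, fl_len]; exact (h.2 j).1, ?_⟩⟩
  intro o ho
  rw [fl_len] at ho
  rw [fl_bit _ _ _ _ ho, fl_bit _ _ _ _ (lt_of_lt_of_le ho (h.2 j).1), (h.2 j).2 o ho]

/-- The flip as an automorphism. -/
noncomputable def flE (z : J → Ordinal.{0} → Bool) : Cn C L ≃o Cn C L where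
  toFun := fl z
  invFun := fl z
  left_inv := fl_fl z
  right_inv := fl_fl z
  map_rel_iff' := by
    intro a b
    constructor
    · intro h
      have := fl_mono z _ _ h
      simpa [fl_fl] using this
    · intro h
      exact fl_mono z _ _ h

theorem flE_apply (z : J → Ordinal.{0} → Bool) (p : Cn C L) : flE z p = fl z p := rfl

theorem rs_c (K : J → Prop) (p : Cn C L) : (rs K p).c = p.c := by
  unfold rs; rfl

theorem rs_len (K : J → Prop) (p : Cn C L) (j : J) [Decidable (K j)] :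
    (rs K p).len j = if K j then p.len j else 0 := by
  unfold rs
  simp only
  congr

theorem rs_bit (K : J → Prop) (p : Cn C L) (j : J) (o : Ordinal.{0}) [Decidable (K j)] :
    (rs K p).bit j o = if K j then p.bit j o else false := by
  unfold rs
  simp only
  congr

theorem rs_rs (K : J → Prop) (p : Cn C L) : rs K (rs K p) = rs K p := by
  classical
  apply Cn.ext'
  · rw [rs_c]
  · intro j; rw [rs_len, rs_len]; split_ifs <;> rfl
  · intro j o ho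
    rw [rs_bit, rs_bit]; split_ifs <;> rfl

theorem le_rs (K : J → Prop) (p : Cn C L) : p ≤ rs K p := by
  classical
  refine ⟨by rw [rs_c], fun j => ⟨?_, ?_⟩⟩
  · rw [rs_len]; split_ifs
    · exact le_rfl
    · exact zero_le
  · intro o ho
    rw [rs_len] at ho
    rw [rs_bit]
    split_ifs with h
    · rfl
    · rw [if_neg h] at ho
      exact absurd ho (not_lt.2 zero_le)

theorem rs_fl (K : J → Prop) (z : J → Ordinal.{0} → Bool) (p : Cn C L) :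
    rs K (fl z p) = fl z (rs K p) := by
  classical
  apply Cn.ext'
  · rw [rs_c, fl_c, fl_c, rs_c]
  · intro j; rw [rs_len, fl_len, fl_len, rs_len]
  · intro j o ho
    rw [rs_len, fl_len] at ho
    by_cases h : K j
    · rw [if_pos h] at ho
      rw [rs_bit, if_pos h, fl_bit _ _ _ _ ho, fl_bit _ _ _ _ (by rw [rs_len, if_pos h]; exact ho),
        rs_bit, if_pos h]
    · rw [if_neg h] at ho
      exact absurd ho (not_lt.2 zero_le)

end flips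

theorem pj_le {p q : QQ} (h : p ≤ q) : pj p ≤ pj q := ⟨le_rfl, h.2⟩

theorem le_of_pj {p q : QQ} (h : pj p ≤ pj q) (hc : p.c ≤ q.c) : p ≤ q := ⟨hc, h.2⟩

theorem pj_fl (z : J → Ordinal.{0} → Bool) (q : QQ) : pj (fl z q) = fl z (pj q) := by
  apply Cn.ext'
  · rfl
  · intro j
    rw [fl_len]
    show (fl z q).len j = q.len j
    rw [fl_len]
  · intro j o ho
    have ho' : o < q.len j := by
      have : (fl z q).len j = q.len j := by rw [fl_len]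
      rw [← this]; exact ho
    rw [fl_bit _ _ _ _ (show o < (pj q).len j from ho')]
    show (fl z q).bit j o = xor (q.bit j o) (z j o)
    rw [fl_bit _ _ _ _ ho']

theorem pj_rs (K : J → Prop) (q : QQ) : pj (rs K q) = rs K (pj q) := by
  classical
  apply Cn.ext'
  · rfl
  · intro j
    rw [rs_len]
    show (rs K q).len j = _
    rw [rs_len]; rfl
  · intro j o ho
    rw [rs_bit]
    show (rs K q).bit j o = _
    rw [rs_bit]; rfl

section ranks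

variable {P : Type 1}

theorem rk_child (ι : Type) (U : ι → P → Prop) (x : ι → Nm P) (i : ι) :
    rk (x i) < rk (.mk ι U x) := by
  have h : rk (.mk ι U x) = ⨆ i, Order.succ (rk (x i)) := by rw [rk]
  rw [h]
  exact lt_of_lt_of_le (Order.lt_succ _) (Ordinal.le_iSup (fun i => Order.succ (rk (x i))) i)

end ranks

section main

variable {I : Type}

/-- The label of `(l, c)` in the name `T k`. -/
def LbT (Y : I → Nm QQ) (a : Ordinal.{0}) (k l : I) (c : Str) (r : PP) : Prop :=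
  rs (fun j => j.1 < a) r = r ∧ ∃ q : QQ, pj q = r ∧ q.c = c ∧ fmem (Y l) (Y k) q

/-- The names for the first forcing. -/
noncomputable def T (Y : I → Nm QQ) (a : Ordinal.{0}) : I → Nm PP :=
  WellFounded.fix (InvImage.wf (fun k => rk (Y k)) Ordinal.lt_wf) (fun k ih =>
    .mk {lc : I × Str // rk (Y lc.1) < rk (Y k)} (fun lc r => LbT Y a k lc.1.1 lc.1.2 r)
      (fun lc => opN (ih lc.1.1 lc.2) (chk (cd lc.1.2))))

theorem T_eq (Y : I → Nm QQ) (a : Ordinal.{0}) (k : I) : T Y a k =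
    .mk {lc : I × Str // rk (Y lc.1) < rk (Y k)} (fun lc r => LbT Y a k lc.1.1 lc.1.2 r)
      (fun lc => opN (T Y a lc.1.1) (chk (cd lc.1.2))) := by
  unfold T
  rw [WellFounded.fix_eq]

end main

/-- The facts used. -/
structure Ctx (I : Type) (Y : I → Nm QQ) (a : Ordinal.{0}) : Prop where
  eP : EqF PP
  eQ : EqF QQ
  aP : ActF PP
  aQ : ActF QQ
  pP : PrF PP
  pQ : PrF QQ
  sP : HsF PP SP
  sQ : HsF QQ SQ
  axP : SysAx SP
  axQ : SysAx SQ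
  dec : ∀ (x y : Nm QQ) p a, Liv SQ a x → Liv SQ a y → fmem x y p → fmem x y (SQ.rho a p)
  lf : LiftF
  lh : P_LIFTHS
  co : CodF QQ
  hs : ∀ k, HS SQ (Y k)
  liv : ∀ k, Liv SQ a (Y k)
  ch : ∀ k (ι : Type) (U : ι → QQ → Prop) (y : ι → Nm QQ), Y k = .mk ι U y → ∀ i, ∃ l, Y l = y i
  gr : ∀ g, g ∈ SQ.G → ∀ k, ∃ l, Y l = act g (Y k)

section ctx

variable {I : Type} {Y : I → Nm QQ} {a : Ordinal.{0}}

/-- (0), first part -/
theorem zeroA (X : Ctx I Y a) {k l : I} {c : Str} {r : QQ} (hc : r.c ≤ c)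
    (h : Lab (LbT Y a k l c) (pj r)) : fmem (Y l) (Y k) r := by
  obtain ⟨u, ⟨h1, q, hq, hqc, hm⟩, hru⟩ := h
  refine X.eQ.mmono _ _ q r (le_of_pj (by rw [hq]; exact hru) (by rw [hqc]; exact hc)) hm

/-- (0), second part -/
theorem zeroB (X : Ctx I Y a) {k l : I} {r : QQ} (h : fmem (Y l) (Y k) r) :
    Lab (LbT Y a k l r.c) (pj r) := by
  refine ⟨pj (rs (fun j => j.1 < a) r), ⟨?_, rs (fun j => j.1 < a) r, rfl, ?_, ?_⟩, ?_⟩
  · rw [← pj_rs, rs_rs]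
  · rw [rs_c]
  · exact X.dec _ _ r a (X.liv l) (X.liv k) h
  · exact pj_le (le_rs _ _)

/-- children of `T k` -/
theorem memT (X : Ctx I Y a) {k l : I} {c : Str} {r : PP} (hrk : rk (Y l) < rk (Y k))
    (h : Lab (LbT Y a k l c) r) : fmem (opN (T Y a l) (chk (cd c))) (T Y a k) r := by
  rw [T_eq Y a k]
  exact X.eP.child {lc : I × Str // rk (Y lc.1) < rk (Y k)}
    (fun lc r => LbT Y a k lc.1.1 lc.1.2 r)
    (fun lc => opN (T Y a lc.1.1) (chk (cd lc.1.2))) ⟨(l, c), hrk⟩ r h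

theorem ofmemT {k : I} {w : Nm PP} {p : PP} (h : fmem w (T Y a k) p) :
    ∀ q, q ≤ p → ∃ r, r ≤ q ∧ ∃ l c, rk (Y l) < rk (Y k) ∧ Lab (LbT Y a k l c) r ∧
      feq w (opN (T Y a l) (chk (cd c))) r := by
  rw [T_eq Y a k] at h
  intro q hq
  obtain ⟨r, hr, lc, h1, h2⟩ := h q hq
  exact ⟨r, hr, lc.1.1, lc.1.2, lc.2, h1, h2⟩

theorem ofmemLT (X : Ctx I Y a) {k : I} {w : Nm QQ} {p : QQ} (h : fmem w (lift (T Y a k)) p) :
    ∀ q, q ≤ p → ∃ r, r ≤ q ∧ ∃ l c, rk (Y l) < rk (Y k) ∧ Lab (LbT Y a k l c) (pj r) ∧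
      feq w (opN (lift (T Y a l)) (chk (cd c))) r := by
  rw [T_eq Y a k] at h
  intro q hq
  obtain ⟨r, hr, lc, h1, h2⟩ := h q hq
  refine ⟨r, hr, lc.1.1, lc.1.2, lc.2, ?_, ?_⟩
  · obtain ⟨u, hu, hru⟩ := h1
    exact ⟨pj u, hu, pj_le hru⟩
  · refine X.eQ.trans _ _ _ r h2 ?_
    refine X.eQ.trans _ _ _ r (X.lf.op _ _ r) ?_
    exact (X.pQ.op _ _ _ _ r).2 ⟨X.eQ.refl _ _, X.lf.chk _ _⟩

/-- (*) -/
theorem star (X : Ctx I Y a) (z : J → Ordinal.{0} → Bool) (hz : FinS z) (g : QQ ≃o QQ)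
    (hg : ∀ q, g q = fl z q) (g' : PP ≃o PP) (hg' : ∀ p, g' p = fl z p) :
    ∀ (o : Ordinal.{0}) (k k' : I), rk (Y k) = o → rk (Y k') = o →
      (∀ q, feq (act g (Y k)) (Y k') q) → ∀ p, feq (act g' (T Y a k)) (T Y a k') p := by
  have hgG : g ∈ SQ.G := ⟨z, hz, hg⟩
  intro o
  induction o using WellFoundedLT.induction with
  | ind o ih =>
  intro k k' hk hk' he p
  rw [T_eq Y a k, T_eq Y a k']
  constructor
  · intro i q hq hl
    obtain ⟨⟨l, c⟩, hlk⟩ := i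
    obtain ⟨u, ⟨hu1, q0, hq0, hc0, hm0⟩, hqu⟩ := hl
    obtain ⟨l', hl'⟩ := X.gr g hgG l
    have hrl : rk (Y l') = rk (Y l) := by rw [hl', X.aQ.rk]
    refine ⟨q, le_rfl, ⟨(l', c), ?_⟩, ⟨u, ⟨?_, g q0, ?_, ?_, ?_⟩, hqu⟩, ?_⟩
    · show rk (Y l') < rk (Y k')
      rw [hrl, hk', ← hk]; exact hlk
    · have h1 : u = fl z (g'.symm u) := by rw [← hg', OrderIso.apply_symm_apply]
      rw [h1, rs_fl, hu1]
    · rw [hg, pj_fl, hq0, ← hg', OrderIso.apply_symm_apply]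
    · rw [hg, fl_c]; exact hc0
    · have h2 : fmem (act g (Y l)) (act g (Y k)) (g q0) := (X.aQ.fmem g _ _ q0).2 hm0
      refine X.eQ.mcongr _ _ _ _ _ ?_ (he _) h2
      rw [hl']; exact X.eQ.refl _ _
    · show feq (act g' (opN (T Y a l) (chk (cd c)))) (opN (T Y a l') (chk (cd c))) q
      rw [X.aP.op, X.aP.chk]
      refine (X.pP.op _ _ _ _ q).2 ⟨?_, X.eP.refl _ _⟩
      refine ih (rk (Y l)) (by rw [← hk]; exact hlk) l l' rfl hrl (fun q => ?_) q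
      rw [hl']; exact X.eQ.refl _ _
  · intro i q hq hl
    obtain ⟨⟨l', c⟩, hlk⟩ := i
    obtain ⟨u, ⟨hu1, q0, hq0, hc0, hm0⟩, hqu⟩ := hl
    obtain ⟨l, hl⟩ := X.gr g⁻¹ (X.axQ.inv g hgG) l'
    have hrl : rk (Y l) = rk (Y l') := by rw [hl, X.aQ.rk]
    have hgl : act g (Y l) = Y l' := by
      rw [hl, ← X.aQ.mul, mul_inv_cancel, X.aQ.one]
    have hgq : g (g⁻¹ q0) = q0 := by
      show (g * g⁻¹) q0 = q0
      rw [mul_inv_cancel]; rfl
    have hu2 : g' (pj (g⁻¹ q0)) = u := by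
      rw [hg', ← pj_fl, ← hg, hgq, hq0]
    have hu3 : g'.symm u = pj (g⁻¹ q0) := by
      rw [← hu2, OrderIso.symm_apply_apply]
    refine ⟨q, le_rfl, ⟨(l, c), ?_⟩, ⟨u, ⟨?_, g⁻¹ q0, ?_, ?_, ?_⟩, hqu⟩, ?_⟩
    · show rk (Y l) < rk (Y k)
      rw [hrl, hk, ← hk']; exact hlk
    · rw [hu3]
      apply g'.injective
      rw [hg', ← rs_fl, ← hg', hu2]; exact hu1
    · exact hu3.symm
    · rw [← hc0]
      conv_rhs => rw [← hgq]
      rw [hg, fl_c]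
    · have h2 : fmem (act g (Y l)) (act g (Y k)) (g (g⁻¹ q0)) := by
        rw [hgq, hgl]
        exact X.eQ.mcongr _ _ _ _ _ (X.eQ.refl _ _) (X.eQ.symm _ _ _ (he _)) hm0
      exact (X.aQ.fmem g _ _ _).1 h2
    · show feq (act g' (opN (T Y a l) (chk (cd c)))) (opN (T Y a l') (chk (cd c))) q
      rw [X.aP.op, X.aP.chk]
      refine (X.pP.op _ _ _ _ q).2 ⟨?_, X.eP.refl _ _⟩
      refine ih (rk (Y l)) (by rw [← hk', hrl]; exact hlk) l l' rfl hrl.symm (fun q => ?_) q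
      rw [hgl]; exact X.eQ.refl _ _

/-- (1) -/
theorem hsT (X : Ctx I Y a) : ∀ (o : Ordinal.{0}) (k : I), rk (Y k) = o → HS SP (T Y a k) := by
  intro o
  induction o using WellFoundedLT.induction with
  | ind o ih =>
  intro k hk
  obtain ⟨e, he⟩ := X.sQ.supp (Y k) (X.hs k)
  have hsup : ∀ g', g' ∈ SP.fix e → ∀ p, feq (act g' (T Y a k)) (T Y a k) p := by
    rintro g' ⟨z, hz, hze, hg'⟩ p
    exact star X z hz (flE z) (fun q => rfl) g' hg' (rk (Y k)) k k rfl rfl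
      (fun q => he (flE z) ⟨z, hz, hze, fun q => rfl⟩ q) p
  rw [T_eq Y a k] at hsup ⊢
  refine ⟨⟨a, fun i u hu => hu.1⟩, ⟨e, hsup⟩, ?_⟩
  rintro ⟨⟨l, c⟩, hl⟩
  exact X.sP.op _ _ (ih _ (by rw [← hk]; exact hl) l rfl) (X.sP.chk _)

/-- the evaluation -/
noncomputable def Fn (Y : I → Nm QQ) (a : Ordinal.{0}) : Nm QQ :=
  .mk I (fun _ u => u = ⊤) (fun k => opN (lift (T Y a k)) (Y k))

/-- (2) -/
theorem hsF (X : Ctx I Y a) : HS SQ (Fn Y a) := by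
  refine ⟨⟨0, fun i u hu => by rw [hu]; exact X.sQ.rtop 0⟩, ⟨(∅ : Finset (Ordinal.{0} × ℕ)), ?_⟩, ?_⟩
  · rintro g ⟨z, hz, hze, hg⟩ p
    have hgG : g ∈ SQ.G := ⟨z, hz, hg⟩
    have hpj : ∀ q, pj (g q) = (flE z : PP ≃o PP) (pj q) := fun q => by
      rw [hg, pj_fl]; rfl
    have key : ∀ k k', Y k' = act g (Y k) → ∀ q,
        feq (act g (opN (lift (T Y a k)) (Y k))) (opN (lift (T Y a k')) (Y k')) q := by
      intro k k' hk q
      rw [X.aQ.op, X.lh.2.2 (flE z) g hpj]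
      refine (X.pQ.op _ _ _ _ q).2 ⟨?_, ?_⟩
      · refine (X.lf.feq _ _ _).2 ?_
        refine star X z hz g hg (flE z) (fun q => rfl) (rk (Y k)) k k' rfl ?_ ?_ _
        · rw [hk, X.aQ.rk]
        · intro q; rw [hk]; exact X.eQ.refl _ _
      · rw [hk]; exact X.eQ.refl _ _
    constructor
    · intro k q hq hl
      obtain ⟨k', hk'⟩ := X.gr g hgG k
      exact ⟨q, le_rfl, k', X.pQ.top q, key k k' hk' q⟩
    · intro k' q hq hl
      obtain ⟨k, hk⟩ := X.gr g⁻¹ (X.axQ.inv g hgG) k'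
      refine ⟨q, le_rfl, k, ⟨⊤, ?_, le_top⟩, key k k' ?_ q⟩
      · show g.symm ⊤ = ⊤
        exact X.sQ.top g.symm
      · rw [hk, ← X.aQ.mul, mul_inv_cancel, X.aQ.one]
  · intro k
    exact X.sQ.op _ _ (X.lh.1 _ (hsT X _ k rfl)) (X.hs k)

theorem memF (X : Ctx I Y a) (k : I) (p : QQ) : fmem (opN (lift (T Y a k)) (Y k)) (Fn Y a) p :=
  X.eQ.child I (fun _ u => u = ⊤) (fun k => opN (lift (T Y a k)) (Y k)) k p (X.pQ.top p)

theorem ofmemF (X : Ctx I Y a) {t y : Nm QQ} {p : QQ} (h : fmem (opN t y) (Fn Y a) p) :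
    ∀ q, q ≤ p → ∃ r, r ≤ q ∧ ∃ k, feq t (lift (T Y a k)) r ∧ feq y (Y k) r := by
  intro q hq
  obtain ⟨r, hr, k, _, h2⟩ := h q hq
  exact ⟨r, hr, k, (X.pQ.op _ _ _ _ r).1 h2⟩

/-- children of Y k -/
theorem childY (X : Ctx I Y a) {k : I} {w : Nm QQ} {p : QQ} (h : fmem w (Y k) p) :
    ∀ q, q ≤ p → ∃ r, r ≤ q ∧ ∃ l, rk (Y l) < rk (Y k) ∧ fmem (Y l) (Y k) r ∧ feq w (Y l) r := by
  intro q hq
  rcases hY : Y k with ⟨ι, U, y⟩
  rw [hY] at h
  obtain ⟨r, hr, j, h1, h2⟩ := h q hq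
  obtain ⟨l, hl⟩ := X.ch k ι U y hY j
  refine ⟨r, hr, l, ?_, ?_, ?_⟩
  · rw [hl]; exact rk_child ι U y j
  · rw [hl]; exact X.eQ.child ι U y j r h1
  · rw [hl]; exact h2

theorem cd_inj (X : Ctx I Y a) {c d : Str} {P : Type 1} [PartialOrder P] [OrderTop P]
    (hP : PrF P) {p : P} (h : feq (chk (cd c)) (chk (cd d)) p) : c = d :=
  X.co.inj _ _ ((hP.chk_eq _ _ p).1 h)

/-- (3) -/
theorem three (X : Ctx I Y a) : ∀ (o : Ordinal.{0}) (l l' : I) (r : QQ), rk (Y l) = o →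
    feq (T Y a l) (T Y a l') (pj r) → feq (Y l) (Y l') r := by
  intro o
  induction o using WellFoundedLT.induction with
  | ind o ih =>
  intro l l' r hl hT
  rcases hY : Y l with ⟨ι, U, x⟩
  rcases hY' : Y l' with ⟨κ, W, y⟩
  apply X.eQ.ext
  · intro i s hs hm
    obtain ⟨m, hm'⟩ := X.ch l ι U x hY i
    have hrk : rk (Y m) < rk (Y l) := by
      rw [hm', hY]; exact rk_child ι U x i
    rw [← hm', ← hY] at hm
    rw [← hm', ← hY']
    have h1 := memT X hrk (zeroB X hm)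
    have h2 := X.eP.mcongr _ _ _ _ _ (X.eP.refl _ _) (X.eP.mono _ _ _ _ (pj_le hs) hT) h1
    refine X.eQ.mdense _ _ _ (fun s1 hs1 => ?_)
    obtain ⟨u, hu, m', c', h3, h4, h5⟩ := ofmemT h2 (pj s1) (pj_le hs1)
    obtain ⟨h6, h7⟩ := (X.pP.op _ _ _ _ u).1 h5
    have h8 := cd_inj X X.pP h7
    obtain ⟨s2, hs2, hs2u⟩ := X.lf.proj s1 u hu
    subst hs2u
    refine ⟨s2, hs2, ?_⟩
    have h9 : fmem (Y m') (Y l') s2 :=
      zeroA X (by rw [← h8]; exact (hs2.trans hs1).1) h4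
    have h10 := ih _ (by rw [← hl]; exact hrk) m m' s2 rfl h6
    exact X.eQ.mcongr _ _ _ _ _ (X.eQ.symm _ _ _ h10) (X.eQ.refl _ _) h9
  · intro j s hs hm
    obtain ⟨m', hm'⟩ := X.ch l' κ W y hY' j
    have hrk : rk (Y m') < rk (Y l') := by
      rw [hm', hY']; exact rk_child κ W y j
    rw [← hm', ← hY'] at hm
    rw [← hm', ← hY]
    have h1 := memT X hrk (zeroB X hm)
    have h2 := X.eP.mcongr _ _ _ _ _ (X.eP.refl _ _)
      (X.eP.symm _ _ _ (X.eP.mono _ _ _ _ (pj_le hs) hT)) h1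
    refine X.eQ.mdense _ _ _ (fun s1 hs1 => ?_)
    obtain ⟨u, hu, m, c', h3, h4, h5⟩ := ofmemT h2 (pj s1) (pj_le hs1)
    obtain ⟨h6, h7⟩ := (X.pP.op _ _ _ _ u).1 h5
    have h8 := cd_inj X X.pP h7
    obtain ⟨s2, hs2, hs2u⟩ := X.lf.proj s1 u hu
    subst hs2u
    refine ⟨s2, hs2, ?_⟩
    have h9 : fmem (Y m) (Y l) s2 :=
      zeroA X (by rw [← h8]; exact (hs2.trans hs1).1) h4
    have h10 := ih _ (by rw [← hl]; exact h3) m m' s2 rfl (X.eP.symm _ _ _ h6)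
    exact X.eQ.mcongr _ _ _ _ _ h10 (X.eQ.refl _ _) h9

/-- (4), second clause -/
theorem four2 (X : Ctx I Y a) (t y : Nm QQ) (p : QQ) (hF : fmem (opN t y) (Fn Y a) p)
    (z : Nm QQ) :
    (fmem z y p ↔ ∀ q, q ≤ p → ∃ r, r ≤ q ∧ ∃ σ c, HS SQ σ ∧ r.c ≤ c ∧
      fmem (opN σ (chk (cd c))) t r ∧ fmem (opN σ z) (Fn Y a) r) := by
  constructor
  · intro hz q hq
    obtain ⟨r1, hr1, k, h1, h2⟩ := ofmemF X hF q hq
    have h3 : fmem z (Y k) r1 :=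
      X.eQ.mcongr _ _ _ _ _ (X.eQ.refl _ _) h2 (X.eQ.mmono _ _ _ _ (hr1.trans hq) hz)
    obtain ⟨r2, hr2, l, h4, h5, h6⟩ := childY X h3 r1 le_rfl
    refine ⟨r2, hr2.trans hr1, lift (T Y a l), r2.c, X.lh.1 _ (hsT X _ l rfl), le_rfl, ?_, ?_⟩
    · have h7 := memT X h4 (zeroB X h5)
      have h8 := (X.lf.fmem _ _ r2).2 h7
      refine X.eQ.mcongr _ _ _ _ _ ?_ (X.eQ.symm _ _ _ (X.eQ.mono _ _ _ _ hr2 h1)) h8
      refine X.eQ.trans _ _ _ r2 (X.lf.op _ _ r2) ?_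
      exact (X.pQ.op _ _ _ _ r2).2 ⟨X.eQ.refl _ _, X.lf.chk _ _⟩
    · refine X.eQ.mcongr _ _ _ _ _ ?_ (X.eQ.refl _ _) (memF X l r2)
      exact (X.pQ.op _ _ _ _ r2).2 ⟨X.eQ.refl _ _, X.eQ.symm _ _ _ h6⟩
  · intro h
    refine X.eQ.mdense _ _ _ (fun q hq => ?_)
    obtain ⟨r1, hr1, σ, c, hσ, hc, h1, h2⟩ := h q hq
    obtain ⟨r2, hr2, k, h3, h4⟩ := ofmemF X hF r1 (hr1.trans hq)
    have h5 : fmem (opN σ (chk (cd c))) (lift (T Y a k)) r2 :=
      X.eQ.mcongr _ _ _ _ _ (X.eQ.refl _ _) h3 (X.eQ.mmono _ _ _ _ hr2 h1)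
    obtain ⟨r3, hr3, l, c', h6, h7, h8⟩ := ofmemLT X h5 r2 le_rfl
    obtain ⟨h9, h10⟩ := (X.pQ.op _ _ _ _ r3).1 h8
    have h11 := cd_inj X X.pQ h10
    have h12 : fmem (Y l) (Y k) r3 :=
      zeroA X (by rw [← h11]; exact ((hr3.trans hr2).1).trans hc) h7
    obtain ⟨r4, hr4, l', h13, h14⟩ := ofmemF X (X.eQ.mmono _ _ _ _ (hr3.trans hr2) h2) r3 le_rfl
    refine ⟨r4, hr4.trans (hr3.trans (hr2.trans hr1)), ?_⟩
    have h15 : feq (lift (T Y a l)) (lift (T Y a l')) r4 :=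
      X.eQ.trans _ _ _ _ (X.eQ.symm _ _ _ (X.eQ.mono _ _ _ _ hr4 h9)) h13
    have h16 := three X _ l l' r4 rfl ((X.lf.feq _ _ _).1 h15)
    refine X.eQ.mcongr _ _ _ _ _ (X.eQ.trans _ _ _ _ h16 (X.eQ.symm _ _ _ h14))
      (X.eQ.symm _ _ _ (X.eQ.mono _ _ _ _ (hr4.trans hr3) h4)) (X.eQ.mmono _ _ _ _ hr4 h12)

/-- (4), third clause -/
theorem four3 (X : Ctx I Y a) (t : Nm QQ) (p : QQ) (σ : Nm QQ) (c : Str) (y : Nm QQ)
    (hF : fmem (opN t y) (Fn Y a) p) (hs : fmem (opN σ (chk (cd c))) t p) :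
    ∀ q, q ≤ p → ∃ r, r ≤ q ∧ ∃ z, HS SQ z ∧ fmem (opN σ z) (Fn Y a) r := by
  intro q hq
  obtain ⟨r2, hr2, k, h3, h4⟩ := ofmemF X hF q hq
  have h5 : fmem (opN σ (chk (cd c))) (lift (T Y a k)) r2 :=
    X.eQ.mcongr _ _ _ _ _ (X.eQ.refl _ _) h3 (X.eQ.mmono _ _ _ _ (hr2.trans hq) hs)
  obtain ⟨r3, hr3, l, c', h6, h7, h8⟩ := ofmemLT X h5 r2 le_rfl
  obtain ⟨h9, h10⟩ := (X.pQ.op _ _ _ _ r3).1 h8
  refine ⟨r3, hr3.trans hr2, Y l, X.hs l, ?_⟩
  refine X.eQ.mcongr _ _ _ _ _ ?_ (X.eQ.refl _ _) (memF X l r3)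
  exact (X.pQ.op _ _ _ _ r3).2 ⟨X.eQ.symm _ _ _ h9, X.eQ.refl _ _⟩

end ctx

theorem vg1_holds (h : P_EQ) (h1 : P_ACT) (h2 : P_FC) (h3 : P_PR) (h4 : P_HS) (h5 : P_DEC)
    (hf : P_FAM) (hl : P_LIFT) (hlh : P_LIFTHS) (hco : P_COD) (hc : P_CAX) (hk : P_KAP)
    (hs : P_SYSC) : P_VG1 := by
  intro x hx
  have axP : SysAx SP := hs hk Unit _ hc.1
  have axQ : SysAx SQ := hs hk Str slen hc.2
  obtain ⟨I, Y, ⟨k0, hk0⟩, hY1, ⟨a, hY2⟩, hY3, hY4⟩ := hf QQ SQ axQ x hx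
  have X : Ctx I Y a :=
    { eP := h PP, eQ := h QQ, aP := h1 PP, aQ := h1 QQ, pP := h3 PP, pQ := h3 QQ,
      sP := h4 PP SP axP, sQ := h4 QQ SQ axQ, axP := axP, axQ := axQ,
      dec := (h5 QQ SQ axQ).2.2, lf := hl, lh := hlh, co := hco.1 QQ, hs := hY1, liv := hY2,
      ch := hY3, gr := hY4 }
  refine ⟨T Y a k0, Fn Y a, hsT X _ k0 rfl, hsF X, ?_, ?_, ?_⟩
  · intro p
    have := memF X k0 p
    rw [hk0] at this
    exact this
  · intro t y p _ _ hF z _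
    exact four2 X t y p hF z
  · intro t p σ c y _ _ _ hF hs _
    exact four3 X t p σ c y hF hs

end Pool.Agent.W477.GM.W800VG1
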