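import Pool.Agent.W477.GM.Stms

/-!
# VG2: the formula of the evaluation is forced
-/

set_option maxHeartbeats 1000000
set_option linter.all false

namespace Pool.Agent.W477.GM.W800VG2

open Pool.Agent.W477.GM

theorem upd {D : Nm QQ → Prop} {v : ℕ → Nm QQ} (hv : ∀ i, D (v i)) (j : ℕ) {x : Nm QQ} (hx : D x) :
    ∀ i, D (Function.update v j x i) := by
  intro i
  by_cases h : i = j
  · subst h; rw [Function.update_self]; exact hx
  · rw [Function.update_of_ne h]; exact hv i

theorem vg2_holds (h : P_EQ) (h2 : P_FC) (h3 : P_PR) (h4 : P_HS) (hl : P_LIFT) (hlh : P_LIFTHS)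
    (hco : P_COD) (hfi : P_FIN) (hv : P_VG1) (hc : P_CAX) (hk : P_KAP) (hs : P_SYSC) : P_VG2 := by
  intro x hx
  have axQ : SysAx SQ := hs hk Str slen hc.2
  have eQ : EqF QQ := h QQ
  have pQ : PrF QQ := h3 QQ
  have sQ : HsF QQ SQ := h4 QQ SQ axQ
  have fQ : FcF QQ (HS SQ) := h2 QQ (HS SQ)
  have gmem := hco.2.2.1
  obtain ⟨τ, F, hτ, hF, hc1, hc2, hc3⟩ := hv x hx
  refine ⟨τ, hτ, ?_⟩
  intro v hv0 hvg hv1 hv2 p
  have fin : ∀ x y f, x < 10 → y < 10 → f < 10 → ∀ v, (∀ i, HS SQ (v i)) → ∀ p,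
    (Fc (HS SQ) (fIn x y f) v p ↔ fmem (opN (v x) (v y)) (v f) p) := hfi QQ SQ axQ
  unfold valFm
  refine (fQ.ex _ _ _ _).2 (fun q hq => ⟨q, le_rfl, F, hF, ?_⟩)
  have hw1 : ∀ i, HS SQ (Function.update v 3 F i) := upd hv0 3 hF
  refine (fQ.and _ _ _ _).2 ⟨?_, ?_⟩
  · intro t ht y hy q1 hq1 hin
    have hw2 : ∀ i, HS SQ (Function.update (Function.update (Function.update v 3 F) 4 t) 5 y i) :=
      upd (upd hw1 4 ht) 5 hy
    have hty : fmem (opN t y) F q1 := by
      have := (fin 4 5 3 (by norm_num) (by norm_num) (by norm_num) _ hw2 q1).1 hin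
      simpa [Function.update_apply] using this
    refine (fQ.and _ _ _ _).2 ⟨?_, ?_⟩
    · intro σ hσ s hs' q2 hq2 hand
      have hw3 := upd (upd hw2 6 hσ) 7 hs'
      obtain ⟨ha, hb⟩ := (fQ.and _ _ _ _).1 hand
      have ha' : fmem (opN σ s) t q2 := by
        have := (fin 6 7 4 (by norm_num) (by norm_num) (by norm_num) _ hw3 q2).1 ha
        simpa [Function.update_apply] using this
      have hb' : fmem s gN q2 := by
        have h0 : fmem s (v 0) q2 := by
          have : fmem _ _ q2 := hb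
          simpa [Function.update_apply] using this
        rwa [hvg] at h0
      refine (fQ.ex _ _ _ _).2 (fun q3 hq3 => ?_)
      obtain ⟨r, hr, c, hrc, hsc⟩ := (gmem s q2).1 hb' q3 hq3
      have h5 : fmem (opN σ (chk (cd c))) t r := by
        refine eQ.mcongr _ _ _ _ _ ?_ (eQ.refl _ _) (eQ.mmono _ _ _ _ (hr.trans hq3) ha')
        exact (pQ.op _ _ _ _ r).2 ⟨eQ.refl _ _, hsc⟩
      obtain ⟨r', hr', z, hz, hzF⟩ := hc3 t r σ c y ht hy hσ
        (eQ.mmono _ _ _ _ ((hr.trans hq3).trans hq2) hty) h5 hrc r le_rfl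
      refine ⟨r', hr'.trans hr, z, hz, ?_⟩
      refine (fin 6 8 3 (by norm_num) (by norm_num) (by norm_num) _ (upd hw3 8 hz) r').2 ?_
      simpa [Function.update_apply] using hzF
    · intro z hz
      have hw3 := upd hw2 8 hz
      refine (fQ.iff _ _ _ _).2 (fun q2 hq2 => ?_)
      have hmem : ∀ q, Fc (HS SQ) (Fm.mem 8 5) (Function.update (Function.update
          (Function.update (Function.update v 3 F) 4 t) 5 y) 8 z) q ↔ fmem z y q := by
        intro q
        show fmem _ _ q ↔ _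
        simp [Function.update_apply]
      rw [hmem]
      have hty2 := eQ.mmono _ _ _ _ hq2 hty
      constructor
      · intro hzy
        refine (fQ.ex _ _ _ _).2 (fun q3 hq3 => ?_)
        obtain ⟨r, hr, σ, c, hσ, hrc, h5, h6⟩ := (hc2 t y q2 ht hy hty2 z hz).1 hzy q3 hq3
        refine ⟨r, hr, σ, hσ, ?_⟩
        refine (fQ.ex _ _ _ _).2 (fun q4 hq4 => ?_)
        refine ⟨q4, le_rfl, chk (cd c), sQ.chk _, ?_⟩
        have hw5 := upd (upd hw3 6 hσ) 7 (sQ.chk (cd c))
        refine (fQ.and _ _ _ _).2 ⟨(fQ.and _ _ _ _).2 ⟨?_, ?_⟩, ?_⟩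
        · refine (fin 6 7 4 (by norm_num) (by norm_num) (by norm_num) _ hw5 q4).2 ?_
          simpa [Function.update_apply] using eQ.mmono _ _ _ _ hq4 h5
        · have h7 : fmem (chk (cd c)) gN q4 :=
            (gmem _ _).2 (fun q5 hq5 => ⟨q5, le_rfl, c, ((hq5.trans hq4).1).trans hrc,
              eQ.refl _ _⟩)
          show fmem _ _ q4
          rw [← hvg] at h7
          simpa [Function.update_apply] using h7
        · refine (fin 6 8 3 (by norm_num) (by norm_num) (by norm_num) _ hw5 q4).2 ?_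
          simpa [Function.update_apply] using eQ.mmono _ _ _ _ hq4 h6
      · intro hex
        refine (hc2 t y q2 ht hy hty2 z hz).2 (fun q3 hq3 => ?_)
        obtain ⟨r1, hr1, σ, hσ, h5⟩ := (fQ.ex _ _ _ _).1 hex q3 hq3
        obtain ⟨r2, hr2, s, hs', h6⟩ := (fQ.ex _ _ _ _).1 h5 r1 le_rfl
        have hw5 := upd (upd hw3 6 hσ) 7 hs'
        obtain ⟨h7, h8⟩ := (fQ.and _ _ _ _).1 h6
        obtain ⟨h9, h10⟩ := (fQ.and _ _ _ _).1 h7
        have ha' : fmem (opN σ s) t r2 := by
          have := (fin 6 7 4 (by norm_num) (by norm_num) (by norm_num) _ hw5 r2).1 h9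
          simpa [Function.update_apply] using this
        have hb' : fmem s gN r2 := by
          have h0 : fmem s (v 0) r2 := by
            have : fmem _ _ r2 := h10
            simpa [Function.update_apply] using this
          rwa [hvg] at h0
        have hc' : fmem (opN σ z) F r2 := by
          have := (fin 6 8 3 (by norm_num) (by norm_num) (by norm_num) _ hw5 r2).1 h8
          simpa [Function.update_apply] using this
        obtain ⟨r3, hr3, c, hrc, hsc⟩ := (gmem s r2).1 hb' r2 le_rfl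
        refine ⟨r3, (hr3.trans hr2).trans hr1, σ, c, hσ, hrc, ?_, eQ.mmono _ _ _ _ hr3 hc'⟩
        refine eQ.mcongr _ _ _ _ _ ?_ (eQ.refl _ _) (eQ.mmono _ _ _ _ hr3 ha')
        exact (pQ.op _ _ _ _ r3).2 ⟨eQ.refl _ _, hsc⟩
  · refine (fin 1 2 3 (by norm_num) (by norm_num) (by norm_num) _ hw1 q).2 ?_
    have := hc1 q
    rw [← hv1, ← hv2] at this
    simpa [Function.update_apply] using this

end Pool.Agent.W477.GM.W800VG2
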